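import Pool.Agent.QD.A.PL

/-!
# QD, polynomial growth in strips from polynomial growth on lines
-/

namespace Pool.Agent.QD

open Pool.Agent.HWR (FinOrd)

open Filter Asymptotics in
private theorem pl_edges2 {f : ℂ → ℂ} {a b : ℝ} (hf : DiffContOnCl ℂ f (Complex.re ⁻¹' Set.Ioo a b))
    (hab : a < b)
    (ho : ∃ A C : ℝ, ∀ s : ℂ, a ≤ s.re → s.re ≤ b → ‖f s‖ ≤ Real.exp (C * (1 + |s.im|) ^ A))
    {M : ℝ} (ha : ∀ s : ℂ, s.re = a → ‖f s‖ ≤ M) (hb : ∀ s : ℂ, s.re = b → ‖f s‖ ≤ M) :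
    ∀ s : ℂ, a ≤ s.re → s.re ≤ b → ‖f s‖ ≤ M := by
  obtain ⟨A, C, hAC⟩ := ho
  intro s hsa hsb
  have hba : 0 < b - a := by linarith
  have hc0 : 0 < Real.pi / (2 * (b - a)) := by positivity
  refine PhragmenLindelof.vertical_strip hf
    ⟨Real.pi / (2 * (b - a)), ?_, Real.exp (Real.pi / (2 * (b - a))), ?_⟩ ha hb hsa hsb
  · rw [div_lt_div_iff₀ (by positivity) hba]
    nlinarith [mul_pos Real.pi_pos hba]
  · set c := Real.pi / (2 * (b - a)) with hc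
    have h1 := (isLittleO_rpow_exp_pos_mul_atTop A hc0).bound
      (show (0 : ℝ) < 1 / (|C| + 1) by positivity)
    have h2 : ∀ᶠ x : ℝ in atTop, C * (1 + x) ^ A ≤ Real.exp c * Real.exp (c * x) := by
      have h3 : Tendsto (fun x : ℝ => 1 + x) atTop atTop := tendsto_atTop_add_const_left _ _ tendsto_id
      filter_upwards [h3.eventually h1, eventually_ge_atTop 0] with x hx hx0
      have h4 : (0 : ℝ) ≤ (1 + x) ^ A := Real.rpow_nonneg (by linarith) _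
      rw [Real.norm_of_nonneg h4, Real.norm_of_nonneg (Real.exp_pos _).le] at hx
      have h5 : (|C| + 1) * (1 + x) ^ A ≤ Real.exp (c * (1 + x)) := by
        rw [div_mul_eq_mul_div, one_mul, le_div_iff₀ (by positivity)] at hx
        linarith
      calc C * (1 + x) ^ A ≤ (|C| + 1) * (1 + x) ^ A := by
            apply mul_le_mul_of_nonneg_right _ h4
            linarith [le_abs_self C]
        _ ≤ Real.exp (c * (1 + x)) := h5
        _ = Real.exp c * Real.exp (c * x) := by rw [← Real.exp_add]; congr 1; ring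
    have h6 : ∀ᶠ z : ℂ in comap (abs ∘ Complex.im) atTop,
        C * (1 + |z.im|) ^ A ≤ Real.exp c * Real.exp (c * |z.im|) :=
      (tendsto_comap (f := abs ∘ Complex.im)).eventually h2
    apply IsBigO.of_bound 1
    rw [eventually_inf_principal]
    filter_upwards [h6] with z hz hz2
    rw [one_mul, Real.norm_of_nonneg (Real.exp_pos _).le]
    exact (hAC z hz2.1.le hz2.2.le).trans (Real.exp_le_exp.mpr hz)

theorem pl_poly_on (a b : ℝ) (hab : a < b) (A : ℝ) (hA : 0 ≤ A) : ∃ C0 : ℝ, 0 < C0 ∧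
    ∀ f : ℂ → ℂ, (∀ s : ℂ, a ≤ s.re → s.re ≤ b → DifferentiableAt ℂ f s) →
      (∃ A' C' : ℝ, ∀ s : ℂ, a ≤ s.re → s.re ≤ b → ‖f s‖ ≤ Real.exp (C' * (1 + |s.im|) ^ A')) →
      ∀ M : ℝ, 0 ≤ M →
      (∀ s : ℂ, s.re = a → ‖f s‖ ≤ M * (1 + |s.im|) ^ A) →
      (∀ s : ℂ, s.re = b → ‖f s‖ ≤ M * (1 + |s.im|) ^ A) →
      ∀ s : ℂ, a ≤ s.re → s.re ≤ b → ‖f s‖ ≤ C0 * M * (1 + |s.im|) ^ (A + 1) := by
  obtain ⟨n, hn1, hn2⟩ : ∃ n : ℕ, A ≤ n ∧ (n : ℝ) ≤ A + 1 :=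
    ⟨⌈A⌉₊, Nat.le_ceil A, (Nat.ceil_lt_add_one hA).le⟩
  have hba : 0 < b - a := by linarith
  refine ⟨2 ^ n * (b - a + 1) ^ n, by positivity, fun f hf ho M hM ha hb => ?_⟩
  -- the distance to the pole
  have hz : ∀ s : ℂ, a ≤ s.re → 1 ≤ (s - ((a - 1 : ℝ) : ℂ)).re := by
    intro s hs
    rw [Complex.sub_re, Complex.ofReal_re]
    linarith
  have hz1 : ∀ s : ℂ, a ≤ s.re → 1 ≤ ‖s - ((a - 1 : ℝ) : ℂ)‖ := fun s hs =>
    (hz s hs).trans ((le_abs_self _).trans (Complex.abs_re_le_norm _))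
  have hz2 : ∀ s : ℂ, |s.im| ≤ ‖s - ((a - 1 : ℝ) : ℂ)‖ := by
    intro s
    have h := Complex.abs_im_le_norm (s - ((a - 1 : ℝ) : ℂ))
    rwa [Complex.sub_im, Complex.ofReal_im, sub_zero] at h
  have hz3 : ∀ s : ℂ, a ≤ s.re → (1 + |s.im|) / 2 ≤ ‖s - ((a - 1 : ℝ) : ℂ)‖ := by
    intro s hs
    have h1 := hz1 s hs
    have h2 := hz2 s
    linarith
  have hz4 : ∀ s : ℂ, a ≤ s.re → s.re ≤ b →
      ‖s - ((a - 1 : ℝ) : ℂ)‖ ≤ (b - a + 1) * (1 + |s.im|) := by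
    intro s hs hs'
    have h1 := Complex.norm_le_abs_re_add_abs_im (s - ((a - 1 : ℝ) : ℂ))
    rw [Complex.sub_re, Complex.sub_im, Complex.ofReal_re, Complex.ofReal_im, sub_zero,
      abs_of_nonneg (by linarith)] at h1
    have h2 : 0 ≤ |s.im| := abs_nonneg _
    nlinarith
  -- the quotient
  have hcl : closure (Complex.re ⁻¹' Set.Ioo a b) ⊆ Complex.re ⁻¹' Set.Icc a b :=
    closure_minimal (Set.preimage_mono Set.Ioo_subset_Icc_self)
      (isClosed_Icc.preimage Complex.continuous_re)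
  have hd : DiffContOnCl ℂ (fun s => f s / (s - ((a - 1 : ℝ) : ℂ)) ^ n)
      (Complex.re ⁻¹' Set.Ioo a b) := by
    refine DifferentiableOn.diffContOnCl fun s hs => ?_
    have hs' := hcl hs
    have h1 : s - ((a - 1 : ℝ) : ℂ) ≠ 0 := by
      intro h0
      have h2 := hz1 s hs'.1
      rw [h0, norm_zero] at h2
      linarith
    exact ((hf s hs'.1 hs'.2).div ((differentiableAt_id.sub (differentiableAt_const _)).pow n)
      (pow_ne_zero n h1)).differentiableWithinAt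
  have hnorm : ∀ s : ℂ, ‖f s / (s - ((a - 1 : ℝ) : ℂ)) ^ n‖ =
      ‖f s‖ / ‖s - ((a - 1 : ℝ) : ℂ)‖ ^ n := by
    intro s
    rw [norm_div, norm_pow]
  have hedge : ∀ s : ℂ, a ≤ s.re → ‖f s‖ ≤ M * (1 + |s.im|) ^ A →
      ‖f s / (s - ((a - 1 : ℝ) : ℂ)) ^ n‖ ≤ 2 ^ n * M := by
    intro s hs h
    have h1 := hz1 s hs
    rw [hnorm, div_le_iff₀ (by positivity)]
    have h2 : (1 + |s.im|) ^ A ≤ (1 + |s.im|) ^ n := by
      rw [← Real.rpow_natCast]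
      exact Real.rpow_le_rpow_of_exponent_le (by linarith [abs_nonneg s.im]) hn1
    have h3 : ((1 + |s.im|) / 2) ^ n ≤ ‖s - ((a - 1 : ℝ) : ℂ)‖ ^ n :=
      pow_le_pow_left₀ (by positivity) (hz3 s hs) n
    calc ‖f s‖ ≤ M * (1 + |s.im|) ^ A := h
      _ ≤ M * (1 + |s.im|) ^ n := mul_le_mul_of_nonneg_left h2 hM
      _ = 2 ^ n * M * ((1 + |s.im|) / 2) ^ n := by
          rw [div_pow]
          field_simp
      _ ≤ 2 ^ n * M * ‖s - ((a - 1 : ℝ) : ℂ)‖ ^ n :=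
          mul_le_mul_of_nonneg_left h3 (by positivity)
  have hgrow : ∃ A C : ℝ, ∀ s : ℂ, a ≤ s.re → s.re ≤ b →
      ‖f s / (s - ((a - 1 : ℝ) : ℂ)) ^ n‖ ≤ Real.exp (C * (1 + |s.im|) ^ A) := by
    obtain ⟨A', C', h⟩ := ho
    refine ⟨A', C', fun s h1 h2 => ?_⟩
    refine le_trans ?_ (h s h1 h2)
    rw [hnorm]
    exact div_le_self (norm_nonneg _) (one_le_pow₀ (hz1 s h1))
  have hmain := pl_edges2 hd hab hgrow (M := 2 ^ n * M) (fun s hs => hedge s hs.ge (ha s hs))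
    (fun s hs => hedge s (by linarith) (hb s hs))
  intro s hs1 hs2
  have h1 := hmain s hs1 hs2
  have h0 := hz1 s hs1
  rw [hnorm, div_le_iff₀ (by positivity)] at h1
  have h2 : ‖s - ((a - 1 : ℝ) : ℂ)‖ ^ n ≤ ((b - a + 1) * (1 + |s.im|)) ^ n :=
    pow_le_pow_left₀ (norm_nonneg _) (hz4 s hs1 hs2) n
  have h3 : (1 + |s.im|) ^ n ≤ (1 + |s.im|) ^ (A + 1) := by
    rw [← Real.rpow_natCast]
    exact Real.rpow_le_rpow_of_exponent_le (by linarith [abs_nonneg s.im]) hn2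
  calc ‖f s‖ ≤ 2 ^ n * M * ‖s - ((a - 1 : ℝ) : ℂ)‖ ^ n := h1
    _ ≤ 2 ^ n * M * ((b - a + 1) * (1 + |s.im|)) ^ n :=
        mul_le_mul_of_nonneg_left h2 (by positivity)
    _ = 2 ^ n * (b - a + 1) ^ n * M * (1 + |s.im|) ^ n := by
        rw [mul_pow]
        ring
    _ ≤ 2 ^ n * (b - a + 1) ^ n * M * (1 + |s.im|) ^ (A + 1) :=
        mul_le_mul_of_nonneg_left h3 (by positivity)



/-- A function which is polynomially bounded on the lines `Re s = x k` (`x k → -∞`) and on a line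
`Re s = x0 ≥ c`, and is of finite order in the strips between them, is polynomially bounded in
strips. -/
theorem polyStrip_of_lines {F : ℂ → ℂ} {c x0 : ℝ} (hc : c ≤ x0) (x : ℕ → ℝ)
    (hx : ∀ y : ℝ, ∃ k, x k ≤ y) (hd : ∀ s : ℂ, s.re ≤ x0 → DifferentiableAt ℂ F s)
    (ho : ∀ a : ℝ, ∃ A C : ℝ, ∀ s : ℂ, a ≤ s.re → s.re ≤ x0 →
      ‖F s‖ ≤ Real.exp (C * (1 + |s.im|) ^ A))
    (h0 : ∃ A C : ℝ, 0 ≤ A ∧ 0 ≤ C ∧ ∀ s : ℂ, s.re = x0 → ‖F s‖ ≤ C * (1 + |s.im|) ^ A)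
    (h1 : ∀ k, ∃ A C : ℝ, 0 ≤ A ∧ 0 ≤ C ∧ ∀ s : ℂ, s.re = x k → ‖F s‖ ≤ C * (1 + |s.im|) ^ A) :
    PolyStrip c F := by
  intro a b hb
  obtain ⟨k, hk⟩ := hx (min a (x0 - 1))
  have hk1 : x k ≤ a := hk.trans (min_le_left _ _)
  have hk2 : x k < x0 := by
    have := hk.trans (min_le_right _ _)
    linarith
  obtain ⟨A0, C0, hA0, hC0, g0⟩ := h0
  obtain ⟨A1, C1, hA1, hC1, g1⟩ := h1 k
  obtain ⟨Cp, hCp, hpl⟩ := pl_poly_on (x k) x0 hk2 (max A0 A1) (le_max_of_le_left hA0)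
  have one : ∀ s : ℂ, 1 ≤ 1 + |s.im| := fun s => by linarith [abs_nonneg s.im]
  have := hpl F (fun s _ h => hd s h) (ho (x k)) (max C0 C1) (le_max_of_le_left hC0)
    (fun s hs => (g1 s hs).trans (mul_le_mul (le_max_right _ _)
      (Real.rpow_le_rpow_of_exponent_le (one s) (le_max_right _ _))
      (Real.rpow_nonneg (by linarith [one s]) _) (le_max_of_le_left hC0)))
    (fun s hs => (g0 s hs).trans (mul_le_mul (le_max_left _ _)
      (Real.rpow_le_rpow_of_exponent_le (one s) (le_max_left _ _))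
      (Real.rpow_nonneg (by linarith [one s]) _) (le_max_of_le_left hC0)))
  refine ⟨max A0 A1 + 1, Cp * max C0 C1, ?_, ?_, fun s h2 h3 => this s (hk1.trans h2) ?_⟩
  · have := hA0.trans (le_max_left A0 A1)
    linarith
  · exact mul_nonneg hCp.le (le_max_of_le_left hC0)
  · linarith

end Pool.Agent.QD
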