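import Pool.Agent.QD.Z.Final

/-!
# QD-N1 (interface): functional equation of the Dedekind zeta function, all number fields
-/

namespace Pool.Agent.QD

open NumberField IsDedekindDomain Pool.Agent.HWR

theorem zeta_fe (F : Type) [Field F] [NumberField F] :
    ∃ Z : ℂ → ℂ, Differentiable ℂ Z ∧ FinOrd Z ∧ Z 1 ≠ 0 ∧
      (∀ w : ℂ, 1 < w.re → Z w = (w - 1) * ZP F w) ∧
      ∀ w : ℂ, w.re < 0 → Z w = (w - 1) * (((|NumberField.discr F| : ℤ) : ℝ) : ℂ) ^ (1 / 2 - w) *
        gR w ^ InfinitePlace.nrRealPlaces F * gC w ^ InfinitePlace.nrComplexPlaces F *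
        ZP F (1 - w) :=
  Z.zeta_fe' F

end Pool.Agent.QD
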