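import Pool.Agent.QD.N3.UPerp
import Pool.Agent.QD.N3.Weak

/-!
# QD-N3 (assembly): the finite group `K^*/H_S`

All the statements of the interface are proved in the modules imported here, under their names:
`exists_inert` (N3.Inert), `HSub`, `sq_mem_HSub`, `GS`, `Nic` (N3.Basic), `GS_finite`, `GS_card`
(N3.GSCard), `BS_mul_left`, `BS_comm`, `BS_sq`, `BS_recip`, `BS_insert` (N3.BSAlg), `sunit_sq` (N3.SUsq),
`U_perp`, `BS_nondeg` (N3.UPerp), `weak_approx` (N3.Weak).
-/
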