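import Pool.Agent.QD.N4.Disc
import Pool.Agent.QD.N4.Regroup
import Pool.Agent.QD.N4.Sqrt
import Pool.Agent.QD.N4.AlgIso
import Pool.Agent.QD.N4.Real

/-!
# QD-N4: local data of `K(√x)`, `x` not a square
-/

namespace Pool.Agent.QD

open NumberField IsDedekindDomain Pool.Agent.HWR

open scoped TensorProduct

variable {K : Type} [Field K] [NumberField K]

section One

variable (K' : Type) [Field K'] [NumberField K'] [Algebra K K'] (hdeg : Module.finrank K K' = 2)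
  (x : Kˣ) (θ : K') (hθ : θ ^ 2 = algebraMap K K' (x : K)) (hns : ¬ IsSquare x)

include hdeg hθ hns

/-- (a) -/
theorem ty_odd (v : HeightOneSpectrum (𝓞 K)) (h2 : (2 : 𝓞 K) ∉ v.asIdeal) :
    ty K K' v = uK v x :=
  N4.ty_odd' K' hdeg x θ hθ hns v h2

theorem ty_one (S : Finset (HeightOneSpectrum (𝓞 K))) (hx : x ∈ HSet S)
    (v : HeightOneSpectrum (𝓞 K)) (hv : v ∈ S) : ty K K' v = 1 :=
  N4.ty_one' K' hdeg x θ hθ hns v (hx.1 v hv)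

omit hθ hns in
/-- Euler product of the zeta function -/
theorem ZP_quad {w : ℂ} (hw : 1 < w.re) :
    ZP K' w = ∏' v : HeightOneSpectrum (𝓞 K), zf (nrm v) (ty K K' v) w :=
  N4.ZP_quad' K K' hdeg hw

omit hθ hns in
/-- Euler product of the L-function -/
theorem LT_quad' {a : ℕ → ℝ} (ha : ∀ q : ℕ, |a q| ≤ 2 * Real.sqrt q) (T : Finset ℕ)
    (hT : ∀ p : ℕ, p.Prime → p < 101 → p ∈ T) {s : ℂ} (hs : 3 / 2 < s.re) :
    LT K' a T s = ∏' v : {v : HeightOneSpectrum (𝓞 K) // Away K T v},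
      FF a (nrm v.1) (ty K K' v.1) s :=
  N4.LT_quad'' K K' hdeg ha T hT hs

/-- (c) for local squares -/
theorem disc_one (S : Finset (HeightOneSpectrum (𝓞 K)))
    (h2 : ∀ v : HeightOneSpectrum (𝓞 K), (2 : 𝓞 K) ∈ v.asIdeal → v ∈ S) (hx : x ∈ HSet S) :
    |NumberField.discr K'| = |NumberField.discr K| ^ 2 *
      ∏ᶠ v : {v : HeightOneSpectrum (𝓞 K) // (2 : 𝓞 K) ∉ v.asIdeal ∧ Odd (ordK v x)},
        (nrm v.1 : ℤ) :=
  N4.disc_one' K' hdeg x θ hθ hns fun v hv => hx.1 v (h2 v hv)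

/-- (e) -/
theorem alg_one (S : Finset (HeightOneSpectrum (𝓞 K))) (hx : x ∈ HSet S) (p : ℕ)
    [Fact p.Prime] (hp : ∀ v : HeightOneSpectrum (𝓞 K), ((p : ℕ) : 𝓞 K) ∈ v.asIdeal → v ∈ S) :
    Nonempty ((ℚ_[p] ⊗[ℚ] K') ≃ₐ[ℚ_[p]] ((ℚ_[p] ⊗[ℚ] K) × (ℚ_[p] ⊗[ℚ] K))) := by
  obtain ⟨ρ, hρ⟩ := N4.exists_sqrt p x fun v hv => hx.1 v (hp v hv)
  exact N4.iso_prod ℚ_[p] K' hdeg x θ hθ hns ρ hρ

/-- (f) -/
theorem real_places : InfinitePlace.nrRealPlaces K' =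
    2 * Nat.card {φ : K →+* ℝ // 0 < φ (x : K)} :=
  N4.real_places' K' hdeg x θ hθ hns

end One

section Two

variable (K' : Type) [Field K'] [NumberField K'] [Algebra K K'] (hdeg : Module.finrank K K' = 2)
  (x : Kˣ) (θ : K') (hθ : θ ^ 2 = algebraMap K K' (x : K)) (hns : ¬ IsSquare x)
  (K'' : Type) [Field K''] [NumberField K''] [Algebra K K''] (hdeg' : Module.finrank K K'' = 2)
  (y : Kˣ) (θ' : K'') (hθ' : θ' ^ 2 = algebraMap K K'' (y : K)) (hns' : ¬ IsSquare y)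

include hdeg hθ hdeg' hθ' hns hns'

/-- (b) -/
theorem ty_congr (S : Finset (HeightOneSpectrum (𝓞 K))) (hxy : x / y ∈ HSet S)
    (v : HeightOneSpectrum (𝓞 K)) (hv : v ∈ S) : ty K K' v = ty K K'' v :=
  N4.ty_congr' K' hdeg x θ hθ hns K'' hdeg' y θ' hθ' hns' v (hxy.1 v hv)

/-- (c) -/
theorem disc_congr (S : Finset (HeightOneSpectrum (𝓞 K)))
    (h2 : ∀ v : HeightOneSpectrum (𝓞 K), (2 : 𝓞 K) ∈ v.asIdeal → v ∈ S)
    (hxy : x / y ∈ HSet S) :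
    |NumberField.discr K'| *
      ∏ᶠ v : {v : HeightOneSpectrum (𝓞 K) // (2 : 𝓞 K) ∉ v.asIdeal ∧ Odd (ordK v y)},
        (nrm v.1 : ℤ) =
    |NumberField.discr K''| *
      ∏ᶠ v : {v : HeightOneSpectrum (𝓞 K) // (2 : 𝓞 K) ∉ v.asIdeal ∧ Odd (ordK v x)},
        (nrm v.1 : ℤ) :=
  N4.disc_congr' K' hdeg x θ hθ hns K'' hdeg' y θ' hθ' hns' fun v hv => hxy.1 v (h2 v hv)

/-- (d) -/
theorem alg_congr (S : Finset (HeightOneSpectrum (𝓞 K))) (hxy : x / y ∈ HSet S) (p : ℕ)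
    [Fact p.Prime] (hp : ∀ v : HeightOneSpectrum (𝓞 K), ((p : ℕ) : 𝓞 K) ∈ v.asIdeal → v ∈ S) :
    Nonempty ((ℚ_[p] ⊗[ℚ] K') ≃ₐ[ℚ_[p]] (ℚ_[p] ⊗[ℚ] K'')) := by
  obtain ⟨ρ, hρ⟩ := N4.exists_sqrt p (x / y) fun v hv => hxy.1 v (hp v hv)
  exact N4.iso_congr ℚ_[p] K' hdeg x θ hθ hns K'' hdeg' y θ' hθ' hns' ρ hρ

end Two

end Pool.Agent.QD
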