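import Pool.Agent.HWR.Defs

/-!
# QD, definitions on the number field side

See `qd_paper.md`.  Local data, Hasse-Weil statement `HW`, orders, local squares, symbols,
class group `K^*/H_S`.
-/

namespace Pool.Agent.QD

open NumberField IsDedekindDomain Pool.Agent.HWR

open scoped TensorProduct

/-! ### Local data and the Hasse-Weil statement -/

/-- Local data at the primes of `T`: for every commutative `ℚ_p`-algebra `R` (used for
`R = ℚ_p ⊗ F`) a sign, a positive real number (norm of the conductor) and a polynomial (inverse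
Euler factor as a polynomial in `p^(-s)`); on finite dimensional algebras they depend only on the
isomorphism class of `R` and are multiplicative on products. -/
structure LocData (T : Finset ℕ) where
  sgn : ∀ (p : ℕ) [Fact p.Prime] (R : Type) [CommRing R] [Algebra ℚ_[p] R], ℤ
  cond : ∀ (p : ℕ) [Fact p.Prime] (R : Type) [CommRing R] [Algebra ℚ_[p] R], ℝ
  pol : ∀ (p : ℕ) [Fact p.Prime] (R : Type) [CommRing R] [Algebra ℚ_[p] R], Polynomial ℂ
  sgn_iso : ∀ (p : ℕ) [Fact p.Prime] (R R' : Type) [CommRing R] [Algebra ℚ_[p] R]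
    [CommRing R'] [Algebra ℚ_[p] R'] [Module.Finite ℚ_[p] R] [Module.Finite ℚ_[p] R'],
    Nonempty (R ≃ₐ[ℚ_[p]] R') → sgn p R = sgn p R'
  cond_iso : ∀ (p : ℕ) [Fact p.Prime] (R R' : Type) [CommRing R] [Algebra ℚ_[p] R]
    [CommRing R'] [Algebra ℚ_[p] R'] [Module.Finite ℚ_[p] R] [Module.Finite ℚ_[p] R'],
    Nonempty (R ≃ₐ[ℚ_[p]] R') → cond p R = cond p R'
  pol_iso : ∀ (p : ℕ) [Fact p.Prime] (R R' : Type) [CommRing R] [Algebra ℚ_[p] R]
    [CommRing R'] [Algebra ℚ_[p] R'] [Module.Finite ℚ_[p] R] [Module.Finite ℚ_[p] R'],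
    Nonempty (R ≃ₐ[ℚ_[p]] R') → pol p R = pol p R'
  sgn_prod : ∀ (p : ℕ) [Fact p.Prime] (R R' : Type) [CommRing R] [Algebra ℚ_[p] R]
    [CommRing R'] [Algebra ℚ_[p] R'] [Module.Finite ℚ_[p] R] [Module.Finite ℚ_[p] R'],
    sgn p (R × R') = sgn p R * sgn p R'
  cond_prod : ∀ (p : ℕ) [Fact p.Prime] (R R' : Type) [CommRing R] [Algebra ℚ_[p] R]
    [CommRing R'] [Algebra ℚ_[p] R'] [Module.Finite ℚ_[p] R] [Module.Finite ℚ_[p] R'],
    cond p (R × R') = cond p R * cond p R'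
  pol_prod : ∀ (p : ℕ) [Fact p.Prime] (R R' : Type) [CommRing R] [Algebra ℚ_[p] R]
    [CommRing R'] [Algebra ℚ_[p] R'] [Module.Finite ℚ_[p] R] [Module.Finite ℚ_[p] R'],
    pol p (R × R') = pol p R * pol p R'
  sgn_sq : ∀ (p : ℕ) [Fact p.Prime] (R : Type) [CommRing R] [Algebra ℚ_[p] R]
    [Module.Finite ℚ_[p] R], sgn p R = 1 ∨ sgn p R = -1
  cond_pos : ∀ (p : ℕ) [Fact p.Prime] (R : Type) [CommRing R] [Algebra ℚ_[p] R]
    [Module.Finite ℚ_[p] R], 0 < cond p R
  pol_zero : ∀ (p : ℕ) [Fact p.Prime] (R : Type) [CommRing R] [Algebra ℚ_[p] R]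
    [Module.Finite ℚ_[p] R], (pol p R).eval 0 = 1
  pol_root : ∀ (p : ℕ) [Fact p.Prime] (R : Type) [CommRing R] [Algebra ℚ_[p] R]
    [Module.Finite ℚ_[p] R] (z : ℂ), (pol p R).eval z = 0 → (p : ℝ) ^ (-(1 / 2) : ℝ) ≤ ‖z‖

section HW

variable {T : Finset ℕ} (D : LocData T)

open Classical in
/-- product over the primes of `T` of the local signs -/
noncomputable def LocData.sg (F : Type) [Field F] [NumberField F] : ℤ :=
  ∏ p ∈ T, if h : p.Prime then haveI := Fact.mk h; D.sgn p (ℚ_[p] ⊗[ℚ] F) else 1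

open Classical in
/-- product over the primes of `T` of the norms of the local conductors -/
noncomputable def LocData.cd (F : Type) [Field F] [NumberField F] : ℝ :=
  ∏ p ∈ T, if h : p.Prime then haveI := Fact.mk h; D.cond p (ℚ_[p] ⊗[ℚ] F) else 1

open Classical in
/-- product over the primes of `T` of the inverse Euler factors -/
noncomputable def LocData.pl (F : Type) [Field F] [NumberField F] (s : ℂ) : ℂ :=
  ∏ p ∈ T, if h : p.Prime then haveI := Fact.mk h;
    (D.pol p (ℚ_[p] ⊗[ℚ] F)).eval ((p : ℂ) ^ (-s)) else 1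

/-- The sign `w(E/F)`. -/
noncomputable def LocData.w (F : Type) [Field F] [NumberField F] : ℂ :=
  (-1) ^ (InfinitePlace.nrRealPlaces F + InfinitePlace.nrComplexPlaces F) * (D.sg F : ℂ)

/-- The constant `A = disc^2 * norm of the conductor`. -/
noncomputable def LocData.A (F : Type) [Field F] [NumberField F] : ℝ :=
  (NumberField.discr F : ℝ) ^ 2 * D.cd F

/-- The completed Euler product, `Re s > 3/2`. -/
noncomputable def LocData.Lam (a : ℕ → ℝ) (F : Type) [Field F] [NumberField F] (s : ℂ) : ℂ :=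
  ((D.A F : ℝ) : ℂ) ^ (s / 2) * gam1 s ^ Module.finrank ℚ F * (LT F a T s / D.pl F s)

/-- Hasse-Weil: the completed function is entire, of finite order in vertical strips, and has the
functional equation. -/
def LocData.HW (a : ℕ → ℝ) (F : Type) [Field F] [NumberField F] : Prop :=
  ∃ Lam : ℂ → ℂ, Differentiable ℂ Lam ∧ FinOrd Lam ∧ (∀ s : ℂ, Lam s = D.w F * Lam (2 - s)) ∧
    ∀ s : ℂ, 3 / 2 < s.re → Lam s = D.Lam a F s

/-- Meromorphic version: quotient of two entire functions of finite order in strips. -/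
def LocData.MER (a : ℕ → ℝ) (F : Type) [Field F] [NumberField F] : Prop :=
  ∃ f g : ℂ → ℂ, Differentiable ℂ f ∧ Differentiable ℂ g ∧ FinOrd f ∧ FinOrd g ∧
    (∀ s : ℂ, 3 / 2 < s.re → g s ≠ 0) ∧
    (∃ c : ℝ, 0 < c ∧ ∃ k : ℕ, ∀ s : ℂ, s.re = 3 → c * Real.exp (-(1 + |s.im|) ^ k) ≤ ‖g s‖) ∧
    (∀ s : ℂ, 3 / 2 < s.re → g s * D.Lam a F s = f s) ∧
    ∀ s : ℂ, f s * g (2 - s) = D.w F * (f (2 - s) * g s)

end HW

/-! ### Orders, local squares, symbols -/

section Sym

variable {K : Type} [Field K] [NumberField K]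

/-- `x` and `1` are `v`-adically close: `ord_v (x - 1) ≥ k`. -/
def closeOne (v : HeightOneSpectrum (𝓞 K)) (k : ℕ) (x : K) : Prop :=
  v.valuation K (x - 1) ≤ WithZero.exp (-(k : ℤ))

/-- The order of `x ∈ K^*` at `v`. -/
noncomputable def ordK (v : HeightOneSpectrum (𝓞 K)) (x : Kˣ) : ℤ :=
  -WithZero.log (v.valuation K (x : K))

/-- `x` is a square in the completion at `v` (stated without completions). -/
def LSq (v : HeightOneSpectrum (𝓞 K)) (x : Kˣ) : Prop :=
  ∀ k : ℕ, ∃ r : Kˣ, closeOne v k ((x : K) * (r : K) ^ 2)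

/-- `x` is a square to first order -/
def LSq1 (v : HeightOneSpectrum (𝓞 K)) (x : Kˣ) : Prop :=
  ∃ r : Kˣ, closeOne v 1 ((x : K) * (r : K) ^ 2)

open Classical in
/-- quadratic symbol of `x` at `v` -/
noncomputable def uK (v : HeightOneSpectrum (𝓞 K)) (x : Kˣ) : ℤ :=
  if Odd (ordK v x) then 0 else if LSq1 v x then 1 else -1

/-- tame symbol `(x,y)_v` -/
noncomputable def hs (v : HeightOneSpectrum (𝓞 K)) (x y : Kˣ) : ℤ :=
  uK v ((-1) ^ (ordK v x * ordK v y) * x ^ (ordK v y) * (y ^ (ordK v x))⁻¹)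

/-- product of the symbols outside `S` -/
noncomputable def BS (S : Finset (HeightOneSpectrum (𝓞 K))) (x y : Kˣ) : ℤ :=
  ∏ᶠ v : {v : HeightOneSpectrum (𝓞 K) // v ∉ S}, hs v.1 x y

/-- Local squares at `S` and totally positive. -/
def HSet (S : Finset (HeightOneSpectrum (𝓞 K))) : Set Kˣ :=
  {x | (∀ v ∈ S, LSq v x) ∧ ∀ φ : K →+* ℝ, 0 < φ (x : K)}

/-- `S` is good: contains the places over `2`, and every place outside `S` is principal modulo
`S`. -/
def Good (S : Finset (HeightOneSpectrum (𝓞 K))) : Prop :=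
  (∀ v : HeightOneSpectrum (𝓞 K), (2 : 𝓞 K) ∈ v.asIdeal → v ∈ S) ∧
  ∀ v : HeightOneSpectrum (𝓞 K), v ∉ S → ∃ x : Kˣ, ordK v x = 1 ∧ ∀ v', v' ∉ S → v' ≠ v →
    ordK v' x = 0

/-- the places over the primes of `T` -/
def OverT (T : Finset ℕ) (S : Finset (HeightOneSpectrum (𝓞 K))) : Prop :=
  ∀ v : HeightOneSpectrum (𝓞 K), v ∈ S ↔ ¬ Away K T v

end Sym

end Pool.Agent.QD
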