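import Pool.Agent.QD.In.Sys
import Pool.Agent.QD.In.V0b
import Pool.Agent.QD.In.V0c
import Pool.Agent.QD.In.Ex
import Pool.Agent.QD.In.Right

/-!
# QD, instantiation (`qd_paper.md` sections 4 and 9, v0-locality)
-/

namespace Pool.Agent.QD

open NumberField IsDedekindDomain Pool.Agent.HWR In

theorem inst (K : Type) [Field K] [NumberField K] (T : Finset ℕ) (hTp : ∀ p ∈ T, p.Prime)
    (hT : ∀ p : ℕ, p.Prime → p < 101 → p ∈ T) (D : LocData T) (a : ℕ → ℝ)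
    (ha : ∀ q : ℕ, |a q| ≤ 2 * Real.sqrt q) (ha2 : SqRel K T a)
    (H : ∀ (K' : Type) [Field K'] [NumberField K'] [Algebra K K'], Module.finrank K K' = 2 →
      D.HW a K') :
    ∃ (S : SysD) (_ : IsSys S) (c1 c2 : S.G) (v0 : HeightOneSpectrum (𝓞 K))
      (F : Finset (HeightOneSpectrum (𝓞 K))) (Phi : ℂ → ℂ),
      c1 ≠ 1 ∧ c2 ≠ 1 ∧ Away K T v0 ∧ (∀ v ∈ F, Away K T v) ∧
      (∀ s : ℂ, 3 / 2 < s.re → LT K a T s = S.Ls s * ∏ v ∈ F, efac a (nrm v) s) ∧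
      (∀ w : ℂ, w.re < 0 → S.M c1 w =
        ((Real.sqrt (nrm v0) : ℂ) * (1 + (nrm v0 : ℂ) ^ (w - 3 / 2))) * Phi w) ∧
      (∀ w : ℂ, w.re < 0 → S.M c2 w = (1 + (nrm v0 : ℂ) ^ (w - 1 / 2)) * Phi w) ∧
      (∃ w : ℂ, w.re < 0 ∧ S.M c1 w ≠ 0) ∧
      (∃ b0 : ℝ, ∀ s : ℂ, s.re < b0 → s.im ≠ 0 → S.GG c2 s ≠ 0) ∧
      (∀ s : ℂ, s.re < 1 / 2 →
        S.GG c1 s * (1 + (a (nrm v0) : ℂ) * (nrm v0 : ℂ) ^ (1 - s) + (nrm v0 : ℂ) ^ (3 - 2 * s)) =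
          S.GG c2 s * ((nrm v0 : ℂ) *
            (1 + (a (nrm v0) : ℂ) * (nrm v0 : ℂ) ^ (-s) + (nrm v0 : ℂ) ^ (1 - 2 * s)))) := by
  classical
  have h2T : 2 ∈ T := hT 2 Nat.prime_two (by norm_num)
  obtain ⟨T1, S', hTT, hT1p, hO, hG⟩ := exists_good K T hTp h2T
  have hS' : Nic T1 S' := ⟨hT1p, hTT h2T, S', hO, hG, subset_rfl⟩
  obtain ⟨v0, e, p, hv0, he, hp⟩ := exists_v0 hS'
  have hS : Nic T1 (insert v0 S') := nic_insert hS' v0
  have hST' : ∀ v, ¬ Away K T v → v ∈ S' := by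
    intro v hv
    refine (hO v).2 fun h => hv fun q hq => h q (hTT hq)
  have hST : ∀ v, ¬ Away K T v → v ∈ insert v0 S' := fun v hv =>
    Finset.mem_insert_of_mem (hST' v hv)
  have h2' : ∀ v : HeightOneSpectrum (𝓞 K), (2 : 𝓞 K) ∈ v.asIdeal → v ∈ S' := hG.1
  have h2 : ∀ v : HeightOneSpectrum (𝓞 K), (2 : 𝓞 K) ∈ v.asIdeal → v ∈ insert v0 S' := fun v hv =>
    Finset.mem_insert_of_mem (h2' v hv)
  have h20 : (2 : 𝓞 K) ∉ v0.asIdeal := nic_two hS' v0 hv0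
  have hv0T : Away K T v0 := by
    by_contra h
    exact hv0 (hST' v0 h)
  obtain ⟨x, w0, hw0, hMx⟩ := exists_Mx_ne hS'
  obtain ⟨z1, hz1, hz1'⟩ := weak_approx S' v0 hv0 x e
  obtain ⟨z2, hz2, hz2'⟩ := weak_approx S' v0 hv0 x p
  have hu1 : uK v0 z1 = -1 := by rw [(uK_congr' v0 hz1').1, he]
  have ho2 : Odd (ordK v0 z2) := (uK_congr' v0 hz2').2.2 hp
  have hq2 : 2 ≤ nrm v0 := two_le_nrm v0
  have hM1 : ∀ w : ℂ, Mx (insert v0 S') z1 w = Mx S' x w * m0 v0 e p z1 w := fun w => by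
    rw [M_split v0 he hp hS' hv0 z1 w, Mx_congr hS' hz1 w]
  have hM2 : ∀ w : ℂ, Mx (insert v0 S') z2 w = Mx S' x w * m0 v0 e p z2 w := fun w => by
    rw [M_split v0 he hp hS' hv0 z2 w, Mx_congr hS' hz2 w]
  have h12 : z1 / z2 ∈ HSub S' := by
    have := (HSub S').div_mem hz1 hz2
    rwa [div_div_div_cancel_right] at this
  have hGG : ∀ z : Kˣ, (sys (insert v0 S') D a).GG (QuotientGroup.mk z) =
      GGX (insert v0 S') D a z := fun z => GGX_congr D _ h2 hST (out_div _ z)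
  have hne : ∀ z : Kˣ, uK v0 z ≠ 1 → (QuotientGroup.mk z : GS (insert v0 S')) ≠ 1 := by
    intro z hz h
    have h3 : z ∈ HSub (insert v0 S') := (QuotientGroup.eq_one_iff z).1 h
    exact hz (uK_of_LSq (h3.1 v0 (Finset.mem_insert_self _ _)))
  refine ⟨sys (insert v0 S') D a, isSys D hS hST hT ha ha2 H, QuotientGroup.mk z1,
    QuotientGroup.mk z2, v0, (insert v0 S').filter (fun v => Away K T v),
    fun w => Mx S' x w * ph (nrm v0) w, ?_, ?_, hv0T, ?_, ?_, ?_, ?_, ?_, ?_, ?_⟩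
  · exact hne z1 (by rw [hu1]; norm_num)
  · refine hne z2 ?_
    rw [uK_eq_zero_iff.2 ho2]
    norm_num
  · intro v hv
    exact (Finset.mem_filter.1 hv).2
  · intro s hs
    rw [LT_split (insert v0 S') hST hT ha hs]
    rfl
  · intro w hw
    show Mx (insert v0 S') z1 w = _
    rw [hM1 w, m0_e v0 h20 he hp hu1 hw]
    ring
  · intro w hw
    show Mx (insert v0 S') z2 w = _
    rw [hM2 w, m0_p v0 h20 he hp ho2 hw]
    ring
  · refine ⟨w0, hw0, ?_⟩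
    show Mx (insert v0 S') z1 w0 ≠ 0
    rw [hM1 w0, m0_e v0 h20 he hp hu1 hw0]
    exact mul_ne_zero hMx (mul_ne_zero (fac_ne hq2 hw0) (ph_ne hq2 hw0))
  · obtain ⟨b0, hb0⟩ := GGX_ne D (insert v0 S') hT ha z2
    refine ⟨b0, fun s hs him => ?_⟩
    rw [hGG z2]
    exact hb0 s hs him
  · intro s hs
    rw [hGG z1, hGG z2]
    exact GGX_rel D S' hT ha ha2 h2' hST' v0 hv0 h12 hu1 ho2 hs

/-- holomorphy on `Re s > 1` (from `HWR.main_general`) -/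
theorem right_half (K : Type) [Field K] [NumberField K] (T : Finset ℕ) (hTp : ∀ p ∈ T, p.Prime)
    (hT : ∀ p : ℕ, p.Prime → p < 101 → p ∈ T) (D : LocData T) (a : ℕ → ℝ)
    (ha : ∀ q : ℕ, |a q| ≤ 2 * Real.sqrt q)
    (H : ∀ (K' : Type) [Field K'] [NumberField K'] [Algebra K K'], Module.finrank K K' = 2 →
      D.HW a K') :
    ∃ R : ℂ → ℂ, DifferentiableOn ℂ R {s : ℂ | 1 < s.re} ∧
      ∀ s : ℂ, 3 / 2 < s.re → R s = D.Lam a K s :=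
  In.right_half K T hTp hT D a ha H

end Pool.Agent.QD
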