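import Pool.Agent.QD.ZDefs

/-!
# QD-N4, definitions: types of places in a quadratic extension
-/

namespace Pool.Agent.QD

open NumberField IsDedekindDomain Pool.Agent.HWR

/-- type of `v` in a quadratic extension: `1` split, `-1` inert, `0` ramified -/
noncomputable def ty (K : Type) [Field K] [NumberField K] (K' : Type) [Field K'] [NumberField K']
    [Algebra K K'] (v : HeightOneSpectrum (𝓞 K)) : ℤ :=
  open Classical in
  if Splits K K' v then 1 else
    if ∃ w : Ideal (𝓞 K'), v.asIdeal.primesOver (𝓞 K') = {w} ∧ Ideal.absNorm w = nrm v ^ 2 then -1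
    else 0

/-- Euler factor of the zeta function of a quadratic extension, by type -/
noncomputable def zf (q : ℕ) (t : ℤ) (w : ℂ) : ℂ :=
  (1 - (q : ℂ) ^ (-w))⁻¹ * (1 - (t : ℂ) * (q : ℂ) ^ (-w))⁻¹

end Pool.Agent.QD
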