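import Pool.Agent.QD.N2.Rec

/-!
# QD-N2: quadratic reciprocity (interface, proved)
-/

namespace Pool.Agent.QD

open NumberField IsDedekindDomain Pool.Agent.HWR

variable {K : Type} [Field K] [NumberField K]

/-- tame symbols away from `2` -/
theorem hs_mul_left (v : HeightOneSpectrum (𝓞 K)) (h2 : (2 : 𝓞 K) ∉ v.asIdeal) (x y z : Kˣ) :
    hs v (x * y) z = hs v x z * hs v y z :=
  N2.hs_mul_left' h2 x y z

theorem hs_comm (v : HeightOneSpectrum (𝓞 K)) (h2 : (2 : 𝓞 K) ∉ v.asIdeal) (x y : Kˣ) :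
    hs v x y = hs v y x :=
  N2.hs_comm' x y

theorem hs_sq (v : HeightOneSpectrum (𝓞 K)) (h2 : (2 : 𝓞 K) ∉ v.asIdeal) (x y : Kˣ) :
    hs v x y = 1 ∨ hs v x y = -1 :=
  N2.hs_sq' x y

/-- for almost all `v` the symbol is `1` -/
theorem hs_finite (x y : Kˣ) :
    {v : HeightOneSpectrum (𝓞 K) | hs v x y ≠ 1}.Finite :=
  N2.hs_finite' x y

/-- **Quadratic reciprocity** for every finite set of places containing the places over `2` -/
theorem reciprocity_all (S : Finset (HeightOneSpectrum (𝓞 K)))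
    (h2 : ∀ v : HeightOneSpectrum (𝓞 K), (2 : 𝓞 K) ∈ v.asIdeal → v ∈ S) (x y : Kˣ)
    (hx : x ∈ HSet S) : BS S x y = 1 :=
  N2.reciprocity' S h2 x y hx

/-- **Quadratic reciprocity** -/
theorem reciprocity (T : Finset ℕ) (hTp : ∀ p ∈ T, p.Prime) (h2 : 2 ∈ T)
    (S : Finset (HeightOneSpectrum (𝓞 K))) (hS : OverT T S) (hG : Good S) (x y : Kˣ)
    (hx : x ∈ HSet S) : BS S x y = 1 :=
  reciprocity_all S hG.1 x y hx

end Pool.Agent.QD
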