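import Mathlib

/-!
# QD / Poisson summation for complex diagonal Gaussians in `n` dimensions, with a shift

`M` an invertible real matrix (rows = linear forms `l_j`), `z_j` complex numbers with positive real
part, `c` a real vector.  The rows of `(M⁻¹)ᵀ` are the dual forms.
-/

set_option autoImplicit false

noncomputable section

open MeasureTheory UnitAddTorus

open scoped Matrix

namespace Pool.Agent.QD

variable {ι : Type*} [Fintype ι]

/-! ### Summability -/

theorem pg_summable_one {a : ℝ} (ha : 0 < a) :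
    Summable (fun k : ℤ => Real.exp (-a * (k : ℝ) ^ 2)) := by
  have h := (summable_jacobiTheta₂_term_iff 0 (Complex.I * (a / Real.pi : ℝ))).mpr (by
    simp only [Complex.mul_im, Complex.I_re, Complex.I_im, Complex.ofReal_re, Complex.ofReal_im]
    have := Real.pi_pos
    simp only [zero_mul, one_mul, zero_add]
    positivity)
  refine h.norm.congr fun k => ?_
  rw [norm_jacobiTheta₂_term]
  congr 1
  simp only [Complex.mul_im, Complex.I_re, Complex.I_im, Complex.ofReal_re, Complex.ofReal_im,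
    Complex.zero_im]
  have := Real.pi_ne_zero
  field_simp
  ring

theorem pg_summable_prod {g : ι → ℤ → ℝ} (h0 : ∀ i k, 0 ≤ g i k) (hg : ∀ i, Summable (g i)) :
    Summable (fun x : ι → ℤ => ∏ i, g i (x i)) := by
  classical
  refine summable_of_sum_le (c := ∏ i, ∑' k, g i k)
    (fun x => Finset.prod_nonneg fun i _ => h0 i _) fun s => ?_
  have h1 : s ⊆ Fintype.piFinset (fun i => s.image (fun x => x i)) := by
    intro x hx
    rw [Fintype.mem_piFinset]
    intro i
    exact Finset.mem_image_of_mem _ hx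
  refine (Finset.sum_le_sum_of_subset_of_nonneg h1
    (fun x _ _ => Finset.prod_nonneg fun i _ => h0 i _)).trans ?_
  rw [← Finset.prod_univ_sum]
  refine Finset.prod_le_prod (fun i _ => Finset.sum_nonneg fun k _ => h0 i k) fun i _ => ?_
  exact (hg i).sum_le_tsum _ (fun k _ => h0 i k)

theorem summable_exp_neg_sq {a : ℝ} (ha : 0 < a) :
    Summable (fun x : ι → ℤ => Real.exp (-a * ∑ i, (x i : ℝ) ^ 2)) := by
  refine (pg_summable_prod (ι := ι) (g := fun _ k => Real.exp (-a * (k : ℝ) ^ 2))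
    (fun i k => (Real.exp_pos _).le) (fun _ => pg_summable_one ha)).congr fun x => ?_
  rw [← Real.exp_sum, Finset.mul_sum]

/-- shift: `Σ (t_i + x_i)² ≥ (1/2) Σ x_i² - Σ t_i²` -/
theorem pg_shift (t x : ι → ℝ) :
    (1 / 2) * ∑ i, x i ^ 2 - ∑ i, t i ^ 2 ≤ ∑ i, (t i + x i) ^ 2 := by
  rw [Finset.mul_sum, ← Finset.sum_sub_distrib]
  refine Finset.sum_le_sum fun i _ => ?_
  nlinarith [sq_nonneg (2 * t i + x i)]

/-- quadratic lower bound for an invertible matrix -/
theorem exists_lower [DecidableEq ι] (M : Matrix ι ι ℝ) (hM : M.det ≠ 0) :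
    ∃ a : ℝ, 0 < a ∧ ∀ x : ι → ℝ, a * ∑ i, x i ^ 2 ≤ ∑ j, (∑ i, M j i * x i) ^ 2 := by
  set B : ℝ := 1 + ∑ i, ∑ j, (M⁻¹ i j) ^ 2 with hB
  have hBpos : 0 < B := by
    have : 0 ≤ ∑ i, ∑ j, (M⁻¹ i j) ^ 2 :=
      Finset.sum_nonneg fun i _ => Finset.sum_nonneg fun j _ => sq_nonneg _
    linarith
  refine ⟨B⁻¹, inv_pos.mpr hBpos, fun x => ?_⟩
  rw [inv_mul_le_iff₀ hBpos]
  set y : ι → ℝ := fun j => ∑ i, M j i * x i with hy
  have h1 : ∀ i, x i = ∑ j, M⁻¹ i j * y j := by
    intro i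
    have h2 : M⁻¹.mulVec (M.mulVec x) = x := by
      rw [Matrix.mulVec_mulVec, Matrix.nonsing_inv_mul _ (isUnit_iff_ne_zero.mpr hM),
        Matrix.one_mulVec]
    have h3 := congrFun h2 i
    rw [← h3]
    rfl
  have h4 : ∀ i, x i ^ 2 ≤ (∑ j, (M⁻¹ i j) ^ 2) * ∑ j, y j ^ 2 := by
    intro i
    rw [h1 i]
    exact Finset.sum_mul_sq_le_sq_mul_sq _ _ _
  calc ∑ i, x i ^ 2 ≤ ∑ i, (∑ j, (M⁻¹ i j) ^ 2) * ∑ j, y j ^ 2 :=
        Finset.sum_le_sum fun i _ => h4 i
    _ = (∑ i, ∑ j, (M⁻¹ i j) ^ 2) * ∑ j, y j ^ 2 := by rw [Finset.sum_mul]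
    _ ≤ B * ∑ j, y j ^ 2 := by
        refine mul_le_mul_of_nonneg_right ?_ (Finset.sum_nonneg fun j _ => sq_nonneg _)
        rw [hB]; linarith

/-- the Gaussian -/
def gau (M : Matrix ι ι ℝ) (z : ι → ℂ) (x : ι → ℝ) : ℂ :=
  Complex.exp (-(Real.pi : ℂ) * ∑ j, z j * ((∑ i, M j i * x i : ℝ) : ℂ) ^ 2)

theorem norm_gau (M : Matrix ι ι ℝ) (z : ι → ℂ) (x : ι → ℝ) :
    ‖gau M z x‖ = Real.exp (-Real.pi * ∑ j, (z j).re * (∑ i, M j i * x i) ^ 2) := by
  unfold gau
  rw [Complex.norm_exp]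
  congr 1
  rw [← Complex.ofReal_neg, Complex.re_ofReal_mul, Complex.re_sum]
  congr 1
  refine Finset.sum_congr rfl fun j _ => ?_
  rw [← Complex.ofReal_pow, mul_comm, Complex.re_ofReal_mul, mul_comm]

theorem exists_gau_le [DecidableEq ι] (M : Matrix ι ι ℝ) (hM : M.det ≠ 0) (z : ι → ℂ)
    (hz : ∀ j, 0 < (z j).re) :
    ∃ a : ℝ, 0 < a ∧ ∀ x : ι → ℝ, ‖gau M z x‖ ≤ Real.exp (-a * ∑ i, x i ^ 2) := by
  obtain ⟨b, hb, hb2⟩ := exists_lower M hM
  obtain ⟨r, hr, hr2⟩ : ∃ r : ℝ, 0 < r ∧ ∀ j, r ≤ (z j).re := by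
    by_cases hne : (Finset.univ : Finset ι).Nonempty
    · obtain ⟨j0, -, hj0⟩ := Finset.exists_min_image Finset.univ (fun j => (z j).re) hne
      exact ⟨(z j0).re, hz j0, fun j => hj0 j (Finset.mem_univ _)⟩
    · refine ⟨1, one_pos, fun j => ?_⟩
      exact absurd ⟨j, Finset.mem_univ j⟩ hne
  refine ⟨Real.pi * (r * b), by have := Real.pi_pos; positivity, fun x => ?_⟩
  rw [norm_gau]
  refine Real.exp_le_exp.mpr ?_
  have h1 : r * b * ∑ i, x i ^ 2 ≤ ∑ j, (z j).re * (∑ i, M j i * x i) ^ 2 := by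
    calc r * b * ∑ i, x i ^ 2 = r * (b * ∑ i, x i ^ 2) := by ring
      _ ≤ r * ∑ j, (∑ i, M j i * x i) ^ 2 := mul_le_mul_of_nonneg_left (hb2 x) hr.le
      _ = ∑ j, r * (∑ i, M j i * x i) ^ 2 := Finset.mul_sum _ _ _
      _ ≤ _ := Finset.sum_le_sum fun j _ => mul_le_mul_of_nonneg_right (hr2 j) (sq_nonneg _)
  have h2 := mul_le_mul_of_nonneg_left h1 Real.pi_pos.le
  nlinarith

theorem continuous_gau (M : Matrix ι ι ℝ) (z : ι → ℂ) : Continuous (gau M z) := by
  unfold gau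
  fun_prop

/-- bound for shifted functions -/
theorem pg_bound {f : (ι → ℝ) → ℂ} {a : ℝ} (ha : 0 < a)
    (hf : ∀ x, ‖f x‖ ≤ Real.exp (-a * ∑ i, x i ^ 2)) (t x : ι → ℝ) {R : ℝ}
    (ht : ∑ i, t i ^ 2 ≤ R) :
    ‖f (fun i => t i + x i)‖ ≤ Real.exp (a * R) * Real.exp (-(a / 2) * ∑ i, x i ^ 2) := by
  refine (hf _).trans ?_
  rw [← Real.exp_add]
  refine Real.exp_le_exp.mpr ?_
  have h1 := pg_shift t x
  nlinarith [mul_le_mul_of_nonneg_left h1 ha.le, mul_le_mul_of_nonneg_left ht ha.le]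

theorem pg_summable {f : (ι → ℝ) → ℂ} {a : ℝ} (ha : 0 < a)
    (hf : ∀ x, ‖f x‖ ≤ Real.exp (-a * ∑ i, x i ^ 2)) (t : ι → ℝ) :
    Summable (fun x : ι → ℤ => f (fun i => t i + (x i : ℝ))) := by
  refine Summable.of_norm_bounded (g := fun x : ι → ℤ => Real.exp (a * ∑ i, t i ^ 2) *
    Real.exp (-(a / 2) * ∑ i, (x i : ℝ) ^ 2)) ((summable_exp_neg_sq (half_pos ha)).mul_left _)
    fun x => pg_bound ha hf t (fun i => (x i : ℝ)) le_rfl

/-! ### The periodisation -/

/-- the periodisation -/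
def per (f : (ι → ℝ) → ℂ) (t : ι → ℝ) : ℂ := ∑' x : ι → ℤ, f (fun i => t i + (x i : ℝ))

theorem per_add (f : (ι → ℝ) → ℂ) (t : ι → ℝ) (n : ι → ℤ) :
    per f (fun i => t i + (n i : ℝ)) = per f t := by
  unfold per
  rw [← (Equiv.addLeft n).tsum_eq (fun x : ι → ℤ => f (fun i => t i + (x i : ℝ)))]
  refine tsum_congr fun x => ?_
  congr 1
  funext i
  simp only [Equiv.coe_addLeft, Pi.add_apply, Int.cast_add]
  ring

theorem continuous_per {f : (ι → ℝ) → ℂ} (hc : Continuous f) {a : ℝ} (ha : 0 < a)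
    (hf : ∀ x, ‖f x‖ ≤ Real.exp (-a * ∑ i, x i ^ 2)) : Continuous (per f) := by
  rw [continuous_iff_continuousAt]
  intro t₀
  set R : ℝ := ∑ i, t₀ i ^ 2 + 1 with hR
  have hopen : IsOpen {t : ι → ℝ | ∑ i, t i ^ 2 < R} :=
    isOpen_lt (by fun_prop) continuous_const
  have hmem : t₀ ∈ {t : ι → ℝ | ∑ i, t i ^ 2 < R} := by
    simp only [Set.mem_setOf_eq, hR]; linarith
  have hcon : ContinuousOn (per f) {t : ι → ℝ | ∑ i, t i ^ 2 < R} := by
    unfold per
    refine continuousOn_tsum (u := fun x : ι → ℤ => Real.exp (a * R) *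
      Real.exp (-(a / 2) * ∑ i, (x i : ℝ) ^ 2)) (fun x => ?_)
      ((summable_exp_neg_sq (half_pos ha)).mul_left _) (fun x t ht => ?_)
    · exact (hc.comp (by fun_prop)).continuousOn
    · exact pg_bound ha hf t (fun i => (x i : ℝ)) (le_of_lt ht)
  exact hcon.continuousAt (hopen.mem_nhds hmem)

/-- the projection to the torus -/
def prj (t : ι → ℝ) : UnitAddTorus ι := fun i => (t i : UnitAddCircle)

theorem prj_quot : IsOpenQuotientMap (prj : (ι → ℝ) → UnitAddTorus ι) := by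
  have : IsOpenQuotientMap (Pi.map (fun (_ : ι) (x : ℝ) => (x : UnitAddCircle))) :=
    IsOpenQuotientMap.piMap fun _ => QuotientAddGroup.isOpenQuotientMap_mk
  exact this

theorem prj_add (t : ι → ℝ) (n : ι → ℤ) : prj (fun i => t i + (n i : ℝ)) = prj t := by
  funext i
  unfold prj
  rw [AddCircle.coe_add]
  have h : ((n i : ℝ) : UnitAddCircle) = 0 := by
    rw [AddCircle.coe_eq_zero_iff]
    exact ⟨n i, by simp⟩
  rw [h, add_zero]

theorem exists_lift {f : (ι → ℝ) → ℂ} (hc : Continuous f) {a : ℝ} (ha : 0 < a)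
    (hf : ∀ x, ‖f x‖ ≤ Real.exp (-a * ∑ i, x i ^ 2)) :
    ∃ F : C(UnitAddTorus ι, ℂ), ∀ t, F (prj t) = per f t := by
  have hs := (prj_quot (ι := ι)).surjective
  have hval : ∀ t, per f (Function.surjInv hs (prj t)) = per f t := by
    intro t
    have h1 : prj (Function.surjInv hs (prj t)) = prj t := Function.surjInv_eq hs _
    have h2 : ∀ i, ∃ n : ℤ, Function.surjInv hs (prj t) i = t i + (n : ℝ) := by
      intro i
      have h3 : ((Function.surjInv hs (prj t) i : ℝ) : UnitAddCircle) = (t i : UnitAddCircle) :=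
        congrFun h1 i
      rw [← sub_eq_zero, ← AddCircle.coe_sub, AddCircle.coe_eq_zero_iff] at h3
      obtain ⟨n, hn⟩ := h3
      refine ⟨n, ?_⟩
      rw [zsmul_eq_mul, mul_one] at hn
      linarith
    choose n hn using h2
    have h4 : Function.surjInv hs (prj t) = fun i => t i + (n i : ℝ) := funext hn
    rw [h4, per_add]
  refine ⟨⟨fun u => per f (Function.surjInv hs u), ?_⟩, hval⟩
  rw [(prj_quot (ι := ι)).isQuotientMap.continuous_iff]
  have h5 : (fun u => per f (Function.surjInv hs u)) ∘ prj = per f := funext hval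
  rw [h5]
  exact continuous_per hc ha hf

/-! ### Unfolding -/

/-- the half open box with corner `x` -/
def box (x : ι → ℝ) : Set (ι → ℝ) := {t | ∀ i, t i ∈ Set.Ioc (x i) (x i + 1)}

theorem measurableSet_box (x : ι → ℝ) : MeasurableSet (box x) := by
  have : box x = Set.pi Set.univ (fun i => Set.Ioc (x i) (x i + 1)) := by
    ext t
    simp [box]
  rw [this]
  exact MeasurableSet.univ_pi fun i => measurableSet_Ioc

theorem iUnion_box : (⋃ x : ι → ℤ, box (fun i => (x i : ℝ))) = Set.univ := by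
  rw [Set.eq_univ_iff_forall]
  intro t
  rw [Set.mem_iUnion]
  refine ⟨fun i => ⌈t i⌉ - 1, fun i => ?_⟩
  simp only [Int.cast_sub, Int.cast_one]
  constructor
  · have := Int.ceil_lt_add_one (t i)
    linarith
  · have := Int.le_ceil (t i)
    linarith

theorem disjoint_box : Pairwise (Function.onFun Disjoint
    (fun x : ι → ℤ => box (fun i => (x i : ℝ)))) := by
  intro x y hxy
  rw [Function.onFun, Set.disjoint_left]
  intro t h1 h2
  apply hxy
  funext i
  have h3 := h1 i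
  have h4 := h2 i
  rw [Set.mem_Ioc] at h3 h4
  have h5 : ((x i : ℝ)) < y i + 1 := lt_of_lt_of_le h3.1 h4.2
  have h6 : ((y i : ℝ)) < x i + 1 := lt_of_lt_of_le h4.1 h3.2
  have h7 : x i < y i + 1 := by exact_mod_cast h5
  have h8 : y i < x i + 1 := by exact_mod_cast h6
  omega

theorem integral_box (h : (ι → ℝ) → ℂ) (x : ι → ℝ) :
    ∫ t in box x, h t = ∫ t in box 0, h (fun i => t i + x i) := by
  rw [← integral_indicator (measurableSet_box x), ← integral_indicator (measurableSet_box 0),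
    ← integral_add_right_eq_self _ x]
  refine integral_congr_ae (Filter.Eventually.of_forall fun t => ?_)
  simp only
  by_cases ht : t ∈ box (0 : ι → ℝ)
  · have h1 : t + x ∈ box x := by
      intro i
      have := ht i
      simp only [Pi.zero_apply, zero_add, Set.mem_Ioc, Pi.add_apply] at this ⊢
      constructor <;> linarith [this.1, this.2]
    rw [Set.indicator_of_mem ht, Set.indicator_of_mem h1]
    rfl
  · have h1 : t + x ∉ box x := by
      intro h2
      apply ht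
      intro i
      have := h2 i
      simp only [Pi.zero_apply, zero_add, Set.mem_Ioc, Pi.add_apply] at this ⊢
      constructor <;> linarith [this.1, this.2]
    rw [Set.indicator_of_notMem ht, Set.indicator_of_notMem h1]

theorem integrable_of_bound {h : (ι → ℝ) → ℂ} (hc : Continuous h) {a : ℝ} (ha : 0 < a)
    (hh : ∀ x, ‖h x‖ ≤ Real.exp (-a * ∑ i, x i ^ 2)) : Integrable h := by
  have h1 : Integrable (fun x : ι → ℝ => ∏ i, Real.exp (-a * x i ^ 2)) :=
    Integrable.fintype_prod (f := fun (_ : ι) (x : ℝ) => Real.exp (-a * x ^ 2))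
      (fun _ => integrable_exp_neg_mul_sq ha)
  refine h1.mono' hc.aestronglyMeasurable (Filter.Eventually.of_forall fun x => ?_)
  rw [← Real.exp_sum, ← Finset.mul_sum]
  exact hh x

theorem integral_per {h : (ι → ℝ) → ℂ} (hc : Continuous h) {a : ℝ} (ha : 0 < a)
    (hh : ∀ x, ‖h x‖ ≤ Real.exp (-a * ∑ i, x i ^ 2)) :
    ∫ t in box 0, per h t = ∫ t, h t := by
  have hint := integrable_of_bound hc ha hh
  have h1 : HasSum (fun x : ι → ℤ => ∫ t in box (fun i => (x i : ℝ)), h t) (∫ t, h t) := by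
    have := hasSum_integral_iUnion (μ := volume) (f := h)
      (fun x : ι → ℤ => measurableSet_box (fun i => (x i : ℝ))) disjoint_box
      (by rw [iUnion_box]; exact hint.integrableOn)
    rwa [iUnion_box, Measure.restrict_univ] at this
  have h2 : HasSum (fun x : ι → ℤ => ∫ t in box (fun i => (x i : ℝ)), ‖h t‖) (∫ t, ‖h t‖) := by
    have := hasSum_integral_iUnion (μ := volume) (f := fun t => ‖h t‖)
      (fun x : ι → ℤ => measurableSet_box (fun i => (x i : ℝ))) disjoint_box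
      (by rw [iUnion_box]; exact hint.norm.integrableOn)
    rwa [iUnion_box, Measure.restrict_univ] at this
  have h3 : ∀ x : ι → ℤ, ∫ t in box (fun i => (x i : ℝ)), ‖h t‖
      = ∫ t in box 0, ‖h (fun i => t i + (x i : ℝ))‖ := by
    intro x
    have h4 := integral_box (fun t => ((‖h t‖ : ℝ) : ℂ)) (fun i => (x i : ℝ))
    rw [integral_complex_ofReal, integral_complex_ofReal] at h4
    exact_mod_cast h4
  have h5 := hasSum_integral_of_summable_integral_norm (μ := volume.restrict (box (0 : ι → ℝ)))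
    (F := fun (x : ι → ℤ) (t : ι → ℝ) => h (fun i => t i + (x i : ℝ)))
    (fun x => ((hint.comp_add_right (fun i => (x i : ℝ))).integrableOn).integrable)
    (by
      refine h2.summable.congr fun x => ?_
      exact h3 x)
  have h6 := h1.unique (h5.congr_fun fun x => ?_)
  · exact h6.symm
  · exact integral_box h (fun i => (x i : ℝ))

/-! ### Poisson summation for functions with a Gaussian bound -/

/-- the character `e^(-2 π i ⟨n, t⟩)` -/
def chr (n : ι → ℤ) (t : ι → ℝ) : ℂ :=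
  Complex.exp (-(2 * Real.pi * Complex.I * ∑ i, (n i : ℂ) * (t i : ℂ)))

theorem norm_chr (n : ι → ℤ) (t : ι → ℝ) : ‖chr n t‖ = 1 := by
  unfold chr
  have : -(2 * Real.pi * Complex.I * ∑ i, (n i : ℂ) * (t i : ℂ))
      = ((-(2 * Real.pi * ∑ i, (n i : ℝ) * t i) : ℝ) : ℂ) * Complex.I := by
    push_cast
    ring
  rw [this, Complex.norm_exp_ofReal_mul_I]

theorem continuous_chr (n : ι → ℤ) : Continuous (chr n) := by
  unfold chr
  fun_prop

theorem mFourier_prj (n : ι → ℤ) (t : ι → ℝ) :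
    mFourier n (prj t) = Complex.exp (2 * Real.pi * Complex.I * ∑ i, (n i : ℂ) * (t i : ℂ)) := by
  unfold mFourier prj
  simp only [ContinuousMap.coe_mk]
  rw [Finset.mul_sum, Complex.exp_sum]
  refine Finset.prod_congr rfl fun i _ => ?_
  rw [fourier_coe_apply]
  congr 1
  push_cast
  ring

theorem mFourier_neg_prj (n : ι → ℤ) (t : ι → ℝ) : mFourier (-n) (prj t) = chr n t := by
  rw [mFourier_prj]
  unfold chr
  congr 1
  rw [← mul_neg, ← Finset.sum_neg_distrib]
  congr 1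
  refine Finset.sum_congr rfl fun i _ => ?_
  simp

theorem chr_add (n : ι → ℤ) (t : ι → ℝ) (x : ι → ℤ) :
    chr n (fun i => t i + (x i : ℝ)) = chr n t := by
  rw [← mFourier_neg_prj, ← mFourier_neg_prj, prj_add]

theorem coeff_lift {f : (ι → ℝ) → ℂ} (hc : Continuous f) {a : ℝ} (ha : 0 < a)
    (hf : ∀ x, ‖f x‖ ≤ Real.exp (-a * ∑ i, x i ^ 2)) {F : C(UnitAddTorus ι, ℂ)}
    (hF : ∀ t, F (prj t) = per f t) (n : ι → ℤ) :
    mFourierCoeff F n = ∫ t, chr n t * f t := by
  rw [mFourierCoeff_eq_integral F n 0]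
  have h1 := integral_per (h := fun t => chr n t * f t) ((continuous_chr n).mul hc) ha
    (fun x => by rw [norm_mul, norm_chr, one_mul]; exact hf x)
  rw [← h1]
  refine setIntegral_congr_fun (measurableSet_box (0 : ι → ℝ)) fun t _ => ?_
  show mFourier (-n) (prj t) • F (prj t) = per (fun t => chr n t * f t) t
  rw [hF, mFourier_neg_prj, smul_eq_mul]
  unfold per
  rw [← tsum_mul_left]
  refine tsum_congr fun x => ?_
  show chr n t * f (fun i => t i + (x i : ℝ)) = chr n (fun i => t i + (x i : ℝ)) *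
    f (fun i => t i + (x i : ℝ))
  rw [chr_add]

/-- Poisson summation -/
theorem poisson_of_bound {f : (ι → ℝ) → ℂ} (hc : Continuous f) {a : ℝ} (ha : 0 < a)
    (hf : ∀ x, ‖f x‖ ≤ Real.exp (-a * ∑ i, x i ^ 2))
    (hs : Summable (fun n : ι → ℤ => ∫ t, chr n t * f t)) (c : ι → ℝ) :
    ∑' x : ι → ℤ, f (fun i => c i + (x i : ℝ)) = ∑' n : ι → ℤ, (∫ t, chr n t * f t) *
      Complex.exp (2 * Real.pi * Complex.I * ∑ i, (n i : ℂ) * (c i : ℂ)) := by
  obtain ⟨F, hF⟩ := exists_lift hc ha hf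
  have h1 : Summable (mFourierCoeff F) := by
    refine hs.congr fun n => ?_
    exact (coeff_lift hc ha hf hF n).symm
  have h2 := (hasSum_mFourier_series_apply_of_summable h1 (prj c)).tsum_eq
  rw [hF] at h2
  have h3 : per f c = ∑' x : ι → ℤ, f (fun i => c i + (x i : ℝ)) := rfl
  rw [← h3, ← h2]
  refine tsum_congr fun n => ?_
  rw [coeff_lift hc ha hf hF n, mFourier_prj, smul_eq_mul]

/-! ### The Fourier transform of the Gaussian -/

theorem fourier_gau [DecidableEq ι] (M : Matrix ι ι ℝ) (hM : M.det ≠ 0) (z : ι → ℂ)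
    (hz : ∀ j, 0 < (z j).re) (n : ι → ℤ) :
    ∫ t, chr n t * gau M z t = ((|M.det| : ℝ) : ℂ)⁻¹ * (∏ j, (z j) ^ (-(1 / 2) : ℂ)) *
      gau (M⁻¹)ᵀ (fun j => (z j)⁻¹) (fun i => (n i : ℝ)) := by
  set w : ι → ℝ := fun j => ∑ i, (M⁻¹)ᵀ j i * (n i : ℝ) with hw
  -- one variable
  have h1 : ∀ j, ∫ x : ℝ, Complex.exp (Complex.I * ((-(2 * Real.pi * w j) : ℝ) : ℂ) * x) *
        Complex.exp (-((Real.pi : ℂ) * z j) * x ^ 2)
      = (z j) ^ (-(1 / 2) : ℂ) * Complex.exp (-(Real.pi : ℂ) * ((z j)⁻¹ * (w j : ℂ) ^ 2)) := by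
    intro j
    have hpz : 0 < ((Real.pi : ℂ) * z j).re := by
      rw [Complex.re_ofReal_mul]
      exact mul_pos Real.pi_pos (hz j)
    have hz0 : z j ≠ 0 := by
      intro h
      have := hz j
      rw [h] at this
      exact lt_irrefl _ this
    have hpi : (Real.pi : ℂ) ≠ 0 := by exact_mod_cast Real.pi_ne_zero
    rw [fourierIntegral_gaussian hpz]
    congr 1
    · have h2 : (Real.pi : ℂ) / ((Real.pi : ℂ) * z j) = (z j)⁻¹ := by
        field_simp
      rw [h2, Complex.inv_cpow, Complex.cpow_neg]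
      intro h3
      have h4 := (Complex.arg_eq_pi_iff.mp h3).1
      linarith [hz j]
    · congr 1
      push_cast
      field_simp
      ring
  -- the integrand as a function of `M t`
  set g : (ι → ℝ) → ℂ := fun u => ∏ j, (Complex.exp (Complex.I *
    ((-(2 * Real.pi * w j) : ℝ) : ℂ) * (u j : ℂ)) *
        Complex.exp (-((Real.pi : ℂ) * z j) * (u j : ℂ) ^ 2)) with hg
  have h5 : ∀ t, chr n t * gau M z t = g (Matrix.toLin' M t) := by
    intro t
    rw [hg]
    simp only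
    rw [Finset.prod_mul_distrib, ← Complex.exp_sum, ← Complex.exp_sum]
    unfold chr gau
    congr 1
    · congr 1
      have h6 : ∑ j, w j * (Matrix.toLin' M t) j = ∑ i, (n i : ℝ) * t i := by
        have h7 : ∀ i, t i = ∑ j, M⁻¹ i j * (Matrix.toLin' M t) j := by
          intro i
          have h8 : M⁻¹.mulVec (M.mulVec t) = t := by
            rw [Matrix.mulVec_mulVec, Matrix.nonsing_inv_mul _ (isUnit_iff_ne_zero.mpr hM),
              Matrix.one_mulVec]
          rw [Matrix.toLin'_apply]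
          exact (congrFun h8 i).symm
        have h9 : ∑ i, (n i : ℝ) * t i
            = ∑ i, ∑ j, (n i : ℝ) * (M⁻¹ i j * (Matrix.toLin' M t) j) := by
          refine Finset.sum_congr rfl fun i _ => ?_
          rw [← Finset.mul_sum, ← h7 i]
        rw [h9, Finset.sum_comm]
        refine Finset.sum_congr rfl fun j _ => ?_
        rw [hw]
        simp only [Matrix.transpose_apply]
        rw [Finset.sum_mul]
        refine Finset.sum_congr rfl fun i _ => ?_
        ring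
      have h10 : ((∑ j, w j * (Matrix.toLin' M t) j : ℝ) : ℂ) = ((∑ i, (n i : ℝ) * t i : ℝ) : ℂ) :=
        congrArg _ h6
      push_cast at h10
      rw [← h10, Finset.mul_sum, ← Finset.sum_neg_distrib]
      refine Finset.sum_congr rfl fun j _ => ?_
      push_cast
      ring
    · congr 1
      rw [Finset.mul_sum]
      refine Finset.sum_congr rfl fun j _ => ?_
      rw [Matrix.toLin'_apply]
      show _ = -((Real.pi : ℂ) * z j) * ((∑ i, M j i * t i : ℝ) : ℂ) ^ 2
      ring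
  have hgc : Continuous g := by
    rw [hg]
    fun_prop
  have h11 : ∫ t, g (Matrix.toLin' M t) = ((|M.det| : ℝ) : ℂ)⁻¹ * ∫ u, g u := by
    have h12 := integral_map (μ := (volume : Measure (ι → ℝ))) (φ := Matrix.toLin' M) (f := g)
      (Matrix.toLin' M).continuous_of_finiteDimensional.measurable.aemeasurable
      hgc.aestronglyMeasurable
    rw [← h12, Real.map_matrix_volume_pi_eq_smul_volume_pi hM, integral_smul_measure,
      ENNReal.toReal_ofReal (abs_nonneg _), Complex.real_smul, abs_inv]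
    push_cast
    rfl
  simp_rw [h5]
  rw [h11, hg]
  have h13 := integral_fintype_prod_volume_eq_prod (𝕜 := ℂ) (E := fun _ : ι => ℝ)
    (fun (j : ι) (x : ℝ) => Complex.exp (Complex.I *
    ((-(2 * Real.pi * w j) : ℝ) : ℂ) * (x : ℂ)) *
        Complex.exp (-((Real.pi : ℂ) * z j) * (x : ℂ) ^ 2))
  simp only
  rw [h13]
  simp_rw [h1]
  rw [Finset.prod_mul_distrib, ← Complex.exp_sum, mul_assoc]
  congr 2
  unfold gau
  congr 1
  rw [Finset.mul_sum]

/-! ### Final form -/

theorem inv_re_pos {z : ℂ} (hz : 0 < z.re) : 0 < (z⁻¹).re := by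
  rw [Complex.inv_re]
  refine div_pos hz (Complex.normSq_pos.mpr ?_)
  intro h
  rw [h] at hz
  exact lt_irrefl _ hz

theorem det_inv_transpose [DecidableEq ι] (M : Matrix ι ι ℝ) (hM : M.det ≠ 0) :
    ((M⁻¹)ᵀ).det ≠ 0 := by
  rw [Matrix.det_transpose, Matrix.det_nonsing_inv, Ring.inverse_eq_inv']
  exact inv_ne_zero hM

theorem gau_shift (M : Matrix ι ι ℝ) (z : ι → ℂ) (x : ι → ℤ) (c : ι → ℝ) :
    gau M z (fun i => c i + (x i : ℝ)) = Complex.exp (-(Real.pi : ℂ) *
      ∑ j, z j * ((∑ i, M j i * ((x i : ℝ) + c i) : ℝ) : ℂ) ^ 2) := by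
  unfold gau
  have h : ∀ j, ∑ i, M j i * (c i + (x i : ℝ)) = ∑ i, M j i * ((x i : ℝ) + c i) := by
    intro j
    refine Finset.sum_congr rfl fun i _ => ?_
    rw [add_comm]
  simp_rw [h]

theorem summable_gauss [DecidableEq ι] (M : Matrix ι ι ℝ) (hM : M.det ≠ 0) (z : ι → ℂ)
    (hz : ∀ j, 0 < (z j).re) (c : ι → ℝ) :
    Summable (fun x : ι → ℤ => Complex.exp (-(Real.pi : ℂ) *
      ∑ j, z j * ((∑ i, M j i * ((x i : ℝ) + c i) : ℝ) : ℂ) ^ 2)) := by
  obtain ⟨a, ha, ha2⟩ := exists_gau_le M hM z hz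
  refine (pg_summable ha ha2 c).congr fun x => ?_
  exact gau_shift M z x c

theorem summable_gauss_dual [DecidableEq ι] (M : Matrix ι ι ℝ) (hM : M.det ≠ 0) (z : ι → ℂ)
    (hz : ∀ j, 0 < (z j).re) (c : ι → ℝ) :
    Summable (fun y : ι → ℤ => Complex.exp (-(Real.pi : ℂ) *
      ∑ j, (z j)⁻¹ * ((∑ i, (M⁻¹)ᵀ j i * (y i : ℝ) : ℝ) : ℂ) ^ 2) *
        Complex.exp (2 * Real.pi * Complex.I * ∑ i, (y i : ℂ) * (c i : ℂ))) := by
  have h1 := (summable_gauss (M⁻¹)ᵀ (det_inv_transpose M hM) (fun j => (z j)⁻¹)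
    (fun j => inv_re_pos (hz j)) 0).norm
  refine Summable.of_norm ?_
  refine h1.congr fun y => ?_
  have h2 : ‖Complex.exp (2 * Real.pi * Complex.I * ∑ i, (y i : ℂ) * (c i : ℂ))‖ = 1 := by
    have : 2 * Real.pi * Complex.I * ∑ i, (y i : ℂ) * (c i : ℂ)
        = ((2 * Real.pi * ∑ i, (y i : ℝ) * c i : ℝ) : ℂ) * Complex.I := by
      push_cast
      ring
    rw [this, Complex.norm_exp_ofReal_mul_I]
  rw [norm_mul, h2, mul_one]
  congr 4
  simp

/-- **Poisson summation** for complex diagonal Gaussians. -/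
theorem poisson_gauss [DecidableEq ι] (M : Matrix ι ι ℝ) (hM : M.det ≠ 0) (z : ι → ℂ)
    (hz : ∀ j, 0 < (z j).re) (c : ι → ℝ) :
    ∑' x : ι → ℤ, Complex.exp (-(Real.pi : ℂ) *
        ∑ j, z j * ((∑ i, M j i * ((x i : ℝ) + c i) : ℝ) : ℂ) ^ 2)
      = ((|M.det| : ℝ) : ℂ)⁻¹ * (∏ j, (z j) ^ (-(1 / 2) : ℂ)) *
        ∑' y : ι → ℤ, Complex.exp (-(Real.pi : ℂ) *
            ∑ j, (z j)⁻¹ * ((∑ i, (M⁻¹)ᵀ j i * (y i : ℝ) : ℝ) : ℂ) ^ 2) *
          Complex.exp (2 * Real.pi * Complex.I * ∑ i, (y i : ℂ) * (c i : ℂ)) := by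
  obtain ⟨a, ha, ha2⟩ := exists_gau_le M hM z hz
  have hs : Summable (fun n : ι → ℤ => ∫ t, chr n t * gau M z t) := by
    simp_rw [fourier_gau M hM z hz]
    refine Summable.mul_left _ ?_
    have h1 := summable_gauss (M⁻¹)ᵀ (det_inv_transpose M hM) (fun j => (z j)⁻¹)
      (fun j => inv_re_pos (hz j)) 0
    refine h1.congr fun y => ?_
    rw [← gau_shift]
    congr 1
    funext i
    simp
  have h2 := poisson_of_bound (continuous_gau M z) ha ha2 hs c
  have h3 : ∀ x : ι → ℤ, Complex.exp (-(Real.pi : ℂ) *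
        ∑ j, z j * ((∑ i, M j i * ((x i : ℝ) + c i) : ℝ) : ℂ) ^ 2)
      = gau M z (fun i => c i + (x i : ℝ)) := fun x => (gau_shift M z x c).symm
  simp_rw [h3]
  rw [h2, ← tsum_mul_left]
  refine tsum_congr fun n => ?_
  rw [fourier_gau M hM z hz]
  unfold gau
  ring

end Pool.Agent.QD
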