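import Pool.Agent.QD.KDefs

/-!
# QD, definitions for the Dedekind zeta functions
-/

namespace Pool.Agent.QD

open NumberField IsDedekindDomain Pool.Agent.HWR

/-- Euler product of the Dedekind zeta function -/
noncomputable def ZP (F : Type) [Field F] [NumberField F] (w : ℂ) : ℂ :=
  ∏' v : HeightOneSpectrum (𝓞 F), (1 - (nrm v : ℂ) ^ (-w))⁻¹

/-- `Γ_ℝ(1-w)/Γ_ℝ(w)` -/
noncomputable def gR (w : ℂ) : ℂ := Complex.Gammaℝ (1 - w) * (Complex.Gammaℝ w)⁻¹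

/-- `Γ_ℂ(1-w)/Γ_ℂ(w)` -/
noncomputable def gC (w : ℂ) : ℂ := Complex.Gammaℂ (1 - w) * (Complex.Gammaℂ w)⁻¹

end Pool.Agent.QD
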